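import Pool.Agent.N929.AP.Stm

/-!
# Connectedness of the filled polyominoes (helper832, project AP of helper929)
-/

set_option autoImplicit false

namespace Pool.Agent.N832.AP

open Finset Relation Pool.Agent.N789.Kl
open Pool.Agent.N929.AP (ring blk ctr hit fillB fillS S_CN)
open scoped Classical

lemma ad (a b c d : ℤ) (h : (a = c ∧ (b = d + 1 ∨ d = b + 1)) ∨ (b = d ∧ (a = c + 1 ∨ c = a + 1))) :
    Adj (a, b) (c, d) := h

lemma mem_ring {v x : Cell} : x ∈ ring v ↔ x ≠ v ∧ (v.1 - 1 ≤ x.1 ∧ x.1 ≤ v.1 + 1) ∧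
    (v.2 - 1 ≤ x.2 ∧ x.2 ≤ v.2 + 1) := by
  unfold ring
  rw [Finset.mem_erase, Finset.mem_product, Finset.mem_Icc, Finset.mem_Icc]

lemma mem_blk {u x : Cell} : x ∈ blk u ↔ (5 * u.1 - 2 ≤ x.1 ∧ x.1 ≤ 5 * u.1 + 2) ∧
    (5 * u.2 - 2 ≤ x.2 ∧ x.2 ≤ 5 * u.2 + 2) := by
  unfold blk
  rw [Finset.mem_product, Finset.mem_Icc, Finset.mem_Icc]

lemma mem_ring' {v : Cell} (i j : ℤ) (h : ¬ (i = 0 ∧ j = 0)) (hi : -1 ≤ i) (hi' : i ≤ 1)
    (hj : -1 ≤ j) (hj' : j ≤ 1) : (v.1 + i, v.2 + j) ∈ ring v := by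
  rw [mem_ring]
  refine ⟨fun he => h ?_, ⟨by simp only; omega, by simp only; omega⟩, by simp only; omega,
    by simp only; omega⟩
  have h1 := congrArg Prod.fst he
  have h2 := congrArg Prod.snd he
  simp only at h1 h2
  omega

/-- the cells of the ring are joined inside the ring -/
lemma ring_conn {v x : Cell} (hx : x ∈ ring v) :
    ReflTransGen (fun c d => Adj c d ∧ c ∈ ring v ∧ d ∈ ring v) (v.1 + 1, v.2 + 0) x := by
  have m1 : (v.1 + 1, v.2 + 0) ∈ ring v := mem_ring' 1 0 (by omega) (by omega) (by omega) (by omega) (by omega)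
  have m2 : (v.1 + 1, v.2 + 1) ∈ ring v := mem_ring' 1 1 (by omega) (by omega) (by omega) (by omega) (by omega)
  have m3 : (v.1 + 0, v.2 + 1) ∈ ring v := mem_ring' 0 1 (by omega) (by omega) (by omega) (by omega) (by omega)
  have m4 : (v.1 + -1, v.2 + 1) ∈ ring v := mem_ring' (-1) 1 (by omega) (by omega) (by omega) (by omega) (by omega)
  have m5 : (v.1 + -1, v.2 + 0) ∈ ring v := mem_ring' (-1) 0 (by omega) (by omega) (by omega) (by omega) (by omega)
  have m6 : (v.1 + -1, v.2 + -1) ∈ ring v := mem_ring' (-1) (-1) (by omega) (by omega) (by omega) (by omega) (by omega)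
  have m7 : (v.1 + 0, v.2 + -1) ∈ ring v := mem_ring' 0 (-1) (by omega) (by omega) (by omega) (by omega) (by omega)
  have m8 : (v.1 + 1, v.2 + -1) ∈ ring v := mem_ring' 1 (-1) (by omega) (by omega) (by omega) (by omega) (by omega)
  have s1 : ReflTransGen (fun c d => Adj c d ∧ c ∈ ring v ∧ d ∈ ring v) (v.1 + 1, v.2 + 0)
      (v.1 + 1, v.2 + 0) := ReflTransGen.refl
  have s2 := s1.tail (c := (v.1 + 1, v.2 + 1)) ⟨ad _ _ _ _ (by omega), m1, m2⟩
  have s3 := s2.tail (c := (v.1 + 0, v.2 + 1)) ⟨ad _ _ _ _ (by omega), m2, m3⟩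
  have s4 := s3.tail (c := (v.1 + -1, v.2 + 1)) ⟨ad _ _ _ _ (by omega), m3, m4⟩
  have s5 := s4.tail (c := (v.1 + -1, v.2 + 0)) ⟨ad _ _ _ _ (by omega), m4, m5⟩
  have s6 := s5.tail (c := (v.1 + -1, v.2 + -1)) ⟨ad _ _ _ _ (by omega), m5, m6⟩
  have s7 := s6.tail (c := (v.1 + 0, v.2 + -1)) ⟨ad _ _ _ _ (by omega), m6, m7⟩
  have s8 := s7.tail (c := (v.1 + 1, v.2 + -1)) ⟨ad _ _ _ _ (by omega), m7, m8⟩
  rw [mem_ring] at hx
  obtain ⟨hne, ⟨h1, h2⟩, h3, h4⟩ := hx
  have ha : x.1 = v.1 + -1 ∨ x.1 = v.1 + 0 ∨ x.1 = v.1 + 1 := by omega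
  have hb : x.2 = v.2 + -1 ∨ x.2 = v.2 + 0 ∨ x.2 = v.2 + 1 := by omega
  have fin : ∀ y : Cell, ReflTransGen (fun c d => Adj c d ∧ c ∈ ring v ∧ d ∈ ring v)
      (v.1 + 1, v.2 + 0) y → x = y →
      ReflTransGen (fun c d => Adj c d ∧ c ∈ ring v ∧ d ∈ ring v) (v.1 + 1, v.2 + 0) x := by
    intro y h e
    rw [e]
    exact h
  rcases ha with ha | ha | ha <;> rcases hb with hb | hb | hb
  · exact fin _ s6 (Prod.ext ha hb)
  · exact fin _ s5 (Prod.ext ha hb)
  · exact fin _ s4 (Prod.ext ha hb)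
  · exact fin _ s7 (Prod.ext ha hb)
  · exact absurd (Prod.ext (by omega) (by omega)) hne
  · exact fin _ s3 (Prod.ext ha hb)
  · exact fin _ s8 (Prod.ext ha hb)
  · exact fin _ s1 (Prod.ext ha hb)
  · exact fin _ s2 (Prod.ext ha hb)

lemma part1 (P : Finset Cell) (v : Cell) (hP : Conn P) (hr : ring v ⊆ P) :
    Conn (insert v P) := by
  have hm : (v.1 + 1, v.2 + 0) ∈ P :=
    hr (mem_ring' 1 0 (by omega) (by omega) (by omega) (by omega) (by omega))
  apply conn_of_root (r := (v.1 + 1, v.2 + 0)) (Finset.mem_insert_of_mem hm)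
  intro b hb
  rcases Finset.mem_insert.1 hb with rfl | hb
  · exact ReflTransGen.single ⟨ad _ _ _ _ (by omega), Finset.mem_insert_of_mem hm,
      Finset.mem_insert_self _ _⟩
  · exact rtg_mono (Finset.subset_insert _ _) (hP.2 _ hm b hb)

lemma part2 (P : Finset Cell) (v : Cell) (hP : Conn P) (hr : ring v ⊆ P) :
    Conn (P.erase v) := by
  by_cases hv : v ∈ P
  · have hr' : ring v ⊆ P.erase v := fun x hx => Finset.mem_erase.2 ⟨(mem_ring.1 hx).1, hr hx⟩
    have hm : (v.1 + 1, v.2 + 0) ∈ P.erase v :=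
      hr' (mem_ring' 1 0 (by omega) (by omega) (by omega) (by omega) (by omega))
    apply conn_of_root (r := (v.1 + 1, v.2 + 0)) hm
    intro b hb
    obtain ⟨u, hu, hvu, hbu⟩ := exists_nbr hP hv hb
    have hur : u ∈ ring v := by
      rw [mem_ring]
      refine ⟨hvu.ne.symm, ?_⟩
      unfold Adj at hvu
      omega
    exact (rtg_mono hr' (ring_conn hur)).trans (mem_comp.1 hbu).2
  · rw [Finset.erase_eq_of_notMem hv]
    exact hP

lemma hline {P : Finset Cell} {y : ℤ} (x : ℤ) (n : ℕ) (h : ∀ z, x ≤ z → z ≤ x + n → (z, y) ∈ P) :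
    ReflTransGen (fun c d => Adj c d ∧ c ∈ P ∧ d ∈ P) (x, y) (x + n, y) := by
  induction n with
  | zero =>
    have : x + ((0 : ℕ) : ℤ) = x := by simp
    rw [this]
  | succ n ih =>
    refine (ih fun z h1 h2 => h z h1 (by push_cast; omega)).tail ⟨?_, ?_, ?_⟩
    · exact ad _ _ _ _ (by push_cast; omega)
    · exact h _ (by omega) (by push_cast; omega)
    · exact h _ (by push_cast; omega) (by push_cast; omega)

lemma vline {P : Finset Cell} {x : ℤ} (y : ℤ) (n : ℕ) (h : ∀ z, y ≤ z → z ≤ y + n → (x, z) ∈ P) :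
    ReflTransGen (fun c d => Adj c d ∧ c ∈ P ∧ d ∈ P) (x, y) (x, y + n) := by
  induction n with
  | zero =>
    have : y + ((0 : ℕ) : ℤ) = y := by simp
    rw [this]
  | succ n ih =>
    refine (ih fun z h1 h2 => h z h1 (by push_cast; omega)).tail ⟨?_, ?_, ?_⟩
    · exact ad _ _ _ _ (by push_cast; omega)
    · exact h _ (by omega) (by push_cast; omega)
    · exact h _ (by push_cast; omega) (by push_cast; omega)

lemma blk_conn (u : Cell) : Conn (blk u) := by
  have h0 : (5 * u.1 - 2, 5 * u.2 - 2) ∈ blk u := by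
    rw [mem_blk]
    simp only
    omega
  apply conn_of_root (r := (5 * u.1 - 2, 5 * u.2 - 2)) h0
  intro b hb
  rw [mem_blk] at hb
  obtain ⟨⟨h1, h2⟩, h3, h4⟩ := hb
  obtain ⟨m, hm⟩ : ∃ m : ℕ, b.1 = 5 * u.1 - 2 + m :=
    ⟨(b.1 - (5 * u.1 - 2)).toNat, by rw [Int.toNat_of_nonneg (by omega)]; ring⟩
  obtain ⟨n, hn⟩ : ∃ n : ℕ, b.2 = 5 * u.2 - 2 + n :=
    ⟨(b.2 - (5 * u.2 - 2)).toNat, by rw [Int.toNat_of_nonneg (by omega)]; ring⟩
  have e : b = (5 * u.1 - 2 + m, 5 * u.2 - 2 + n) := Prod.ext hm hn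
  rw [e]
  refine (hline (5 * u.1 - 2) m ?_).trans (vline (5 * u.2 - 2) n ?_)
  · intro z hz1 hz2
    rw [mem_blk]
    simp only
    omega
  · intro z hz1 hz2
    rw [mem_blk]
    simp only
    omega

lemma conn_union_common {A B : Finset Cell} (hA : Conn A) (hB : Conn B) {c : Cell} (ha : c ∈ A)
    (hb : c ∈ B) : Conn (A ∪ B) := by
  apply conn_of_root (r := c) (Finset.mem_union_left _ ha)
  intro d hd
  rcases Finset.mem_union.1 hd with hd | hd
  · exact rtg_mono Finset.subset_union_left (hA.2 c ha d hd)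
  · exact rtg_mono Finset.subset_union_right (hB.2 c hb d hd)

lemma hit_mem {P : Finset Cell} {u : Cell} (hu : u ∈ hit P) : ∃ c ∈ P, c ∈ blk u := by
  unfold hit at hu
  rw [Finset.mem_image] at hu
  obtain ⟨c, hc, rfl⟩ := hu
  refine ⟨c, hc, ?_⟩
  rw [mem_blk]
  simp only
  omega

lemma part3 (P T : Finset Cell) (hP : Conn P) (hT : T ⊆ hit P) : Conn (P ∪ T.biUnion blk) := by
  induction T using Finset.induction_on with
  | empty =>
    rw [Finset.biUnion_empty, Finset.union_empty]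
    exact hP
  | insert u T hu ih =>
    have e : P ∪ (insert u T).biUnion blk = (P ∪ T.biUnion blk) ∪ blk u := by
      rw [Finset.biUnion_insert, Finset.union_comm (blk u), Finset.union_assoc]
    rw [e]
    obtain ⟨c, hc, hcu⟩ := hit_mem (hT (Finset.mem_insert_self _ _))
    exact conn_union_common (ih fun x hx => hT (Finset.mem_insert_of_mem hx)) (blk_conn u)
      (Finset.mem_union_left _ hc) hcu

lemma part4 (P T : Finset Cell) (hP : Conn P) (hT : T ⊆ hit P) :
    Conn ((P ∪ T.biUnion blk) \ T.image ctr) := by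
  have h : ∀ T' : Finset Cell, T' ⊆ T → Conn ((P ∪ T.biUnion blk) \ T'.image ctr) := by
    intro T'
    induction T' using Finset.induction_on with
    | empty =>
      intro _
      rw [Finset.image_empty, Finset.sdiff_empty]
      exact part3 P T hP hT
    | insert u T' hu ih =>
      intro hT'
      have e : (P ∪ T.biUnion blk) \ (insert u T').image ctr
          = ((P ∪ T.biUnion blk) \ T'.image ctr).erase (ctr u) := by
        ext x
        simp only [Finset.mem_sdiff, Finset.image_insert, Finset.mem_insert, Finset.mem_erase,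
          not_or]
        tauto
      rw [e]
      refine part2 _ _ (ih fun x hx => hT' (Finset.mem_insert_of_mem hx)) ?_
      intro x hx
      rw [mem_ring] at hx
      obtain ⟨hne, ⟨h1, h2⟩, h3, h4⟩ := hx
      have c1 : (ctr u).1 = 5 * u.1 + 1 := rfl
      have c2 : (ctr u).2 = 5 * u.2 + 1 := rfl
      rw [c1] at h1 h2
      rw [c2] at h3 h4
      rw [Finset.mem_sdiff]
      refine ⟨Finset.mem_union_right _ (Finset.mem_biUnion.2
        ⟨u, hT' (Finset.mem_insert_self _ _), ?_⟩), ?_⟩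
      · rw [mem_blk]
        omega
      · intro hx
        rw [Finset.mem_image] at hx
        obtain ⟨w, _, hw⟩ := hx
        have d1 : x.1 = 5 * w.1 + 1 := by rw [← hw]; rfl
        have d2 : x.2 = 5 * w.2 + 1 := by rw [← hw]; rfl
        apply hne
        refine Prod.ext ?_ ?_
        · rw [c1]
          omega
        · rw [c2]
          omega
  exact h T (Finset.Subset.refl _)

/-- connectedness of the filled polyominoes -/
theorem cn : S_CN :=
  ⟨part1, part2, fun P T hP hT => part3 P T hP hT, fun P T hP hT => part4 P T hP hT⟩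

end Pool.Agent.N832.AP
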